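import Pool.Agent.helper93.PX.Spec

/-! # Project PX, row BW: one block -/

set_option autoImplicit false

namespace Pool.Agent.PX

theorem BW (hRL : RL_stmt) (hRH : RH_stmt) : BW_stmt := by
  intro T b c x hc hbx hD w
  have h1 : b / c * x = b * x / c := by ring
  have h2 : b * x / c - (⌊b * x / c⌋ : ℝ) = w / c := by
    show _ = (b * x - (⌊b * x / c⌋ : ℝ) * c) / c
    field_simp
  have h3 : run (blk b c T) x = run (ratios (c :: T)) (w / c) := by
    rw [blk, run, h1, h2]
  have h4 : 0 ≤ w := by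
    show 0 ≤ b * x - (⌊b * x / c⌋ : ℝ) * c
    have h5 := Int.floor_le (b * x / c)
    rw [le_div_iff₀ hc] at h5
    linarith
  rw [h3]
  exact ⟨fun h5 => hRL T c hD w h4 h5, fun h5 => hRH T c hD w h5⟩

end Pool.Agent.PX
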