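import Pool.Agent.helper93.PX.Spec

/-! # Project PX, row RH: a state in the chain is killed -/

set_option autoImplicit false

namespace Pool.Agent.PX

lemma RH_dec {x y : ℝ} {l : List ℝ} (h : Dec (x :: y :: l)) : y < x ∧ Dec (y :: l) := by
  obtain ⟨h1, h2, h3⟩ := h
  rw [List.isChain_cons_cons] at h1
  refine ⟨h1.1, h1.2, List.cons_ne_nil _ _, ?_⟩
  rw [← h3]
  simp

lemma RH_one : ∀ (T : List ℝ) (x : ℝ), Dec (x :: T) → 1 ≤ x := by
  intro T
  induction T with
  | nil =>
    intro x h
    obtain ⟨-, h2, h3⟩ := h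
    simp at h3
    exact h3.ge
  | cons y l ih =>
    intro x h
    obtain ⟨h1, h2⟩ := RH_dec h
    exact (ih y h2).trans h1.le

lemma RH_mem : ∀ (T : List ℝ) (x : ℝ), Dec (x :: T) → ∀ w ∈ T, 1 ≤ w ∧ w < x := by
  intro T
  induction T with
  | nil =>
    intro x h w hw
    simp at hw
  | cons y l ih =>
    intro x h w hw
    obtain ⟨h1, h2⟩ := RH_dec h
    rcases List.mem_cons.1 hw with h3 | h3
    · rw [h3]
      exact ⟨RH_one l y h2, h1⟩
    · obtain ⟨h4, h5⟩ := ih y h2 w h3
      exact ⟨h4, h5.trans h1⟩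

lemma RH_zero : ∀ L : List ℝ, run L 0 = 0 := by
  intro L
  induction L with
  | nil => rfl
  | cons a L ih =>
    rw [run, mul_zero, Int.floor_zero, Int.cast_zero, sub_zero]
    exact ih

theorem RH : RH_stmt := by
  intro T
  induction T with
  | nil =>
    intro x h w hw
    simp at hw
  | cons y l ih =>
    intro x h w hw
    obtain ⟨h1, h2⟩ := RH_dec h
    have hy : 1 ≤ y := RH_one l y h2
    have hx : 0 < x := by linarith
    have hy0 : 0 < y := by linarith
    have e : x / y * (w / x) = w / y := by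
      field_simp
    rw [ratios, run, e]
    rcases List.mem_cons.1 hw with h3 | h3
    · rw [h3, div_self hy0.ne', Int.floor_one, Int.cast_one, sub_self]
      exact RH_zero _
    · obtain ⟨h4, h5⟩ := RH_mem l y h2 w h3
      have h6 : ⌊w / y⌋ = 0 := by
        rw [Int.floor_eq_zero_iff]
        exact ⟨by positivity, (div_lt_one hy0).2 h5⟩
      rw [h6, Int.cast_zero, sub_zero]
      exact ih y h2 w h3

end Pool.Agent.PX
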