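import Pool.Agent.helper93.PX.Spec

/-! # Project PX, row RS: starting with 1 inside a chain -/

set_option autoImplicit false

namespace Pool.Agent.PX

lemma RS_dec {x y : ℝ} {l : List ℝ} (h : Dec (x :: y :: l)) : y < x ∧ Dec (y :: l) := by
  obtain ⟨h1, h2, h3⟩ := h
  rw [List.isChain_cons_cons] at h1
  refine ⟨h1.1, h1.2, List.cons_ne_nil _ _, ?_⟩
  rw [← h3]
  simp

lemma RS_one : ∀ (T : List ℝ) (x : ℝ), Dec (x :: T) → 1 ≤ x := by
  intro T
  induction T with
  | nil =>
    intro x h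
    obtain ⟨-, h2, h3⟩ := h
    simp at h3
    exact h3.ge
  | cons y l ih =>
    intro x h
    obtain ⟨h1, h2⟩ := RS_dec h
    exact (ih y h2).trans h1.le

theorem RS (hRL : RL_stmt) : RS_stmt := by
  intro T x y hx h
  obtain ⟨h1, h2⟩ := RS_dec h
  have hy : 1 ≤ y := RS_one T y h2
  have hy0 : 0 < y := by linarith
  have h3 : ⌊x / y * 1⌋ = 1 := by
    rw [mul_one, Int.floor_eq_iff]
    constructor
    · rw [Int.cast_one, le_div_iff₀ hy0]
      linarith
    · rw [Int.cast_one, div_lt_iff₀ hy0]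
      linarith
  rw [ratios, run, h3]
  have e : x / y * 1 - ((1 : ℤ) : ℝ) = (x - y) / y := by
    rw [Int.cast_one, mul_one]
    field_simp
  rw [e]
  exact hRL T y h2 (x - y) (by linarith) (by linarith)

end Pool.Agent.PX
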